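import Mathlib

set_option autoImplicit false

/-!
# Convex bodies passing through a convex door

We show that for every real `c < 4 / 3` there are a convex body `K` in Euclidean 3-space and a
convex door `D` in the plane `x₃ = 0` such that `K` can be moved through `D`, while every plane
projection of `K` has area greater than `c` times the area of `D`.
-/

open MeasureTheory Set

namespace Pool.Agent.Results.MP_d572aa_gt.ConvexDoor

/-- Euclidean 3-space. -/
abbrev E3 : Type := EuclideanSpace ℝ (Fin 3)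

/-- Euclidean plane (used for coordinates on the wall plane). -/
abbrev E2 : Type := EuclideanSpace ℝ (Fin 2)

/-- The plane `x₃ = 0` (coordinates are indexed by `0, 1, 2`). -/
def wallPlane : Set E3 := {x | x 2 = 0}

/-- A convex body: a compact convex set with nonempty interior. -/
def IsConvexBody (K : Set E3) : Prop :=
  IsCompact K ∧ Convex ℝ K ∧ (interior K).Nonempty

/-- A door: a compact convex subset of the plane `x₃ = 0` with nonempty interior relative to
that plane. -/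
def IsDoor (D : Set E3) : Prop :=
  IsCompact D ∧ Convex ℝ D ∧ D ⊆ wallPlane ∧
    ∃ p ∈ D, ∃ r : ℝ, 0 < r ∧ Metric.ball p r ∩ wallPlane ⊆ D

/-- The area of a subset of the plane `x₃ = 0`: the 2-dimensional Lebesgue measure of the set of
its coordinate pairs `(x₁, x₂)`. -/
noncomputable def doorArea (D : Set E3) : ENNReal :=
  volume {y : E2 | (!₂[y 0, y 1, 0] : E3) ∈ D}

/-- The Lebesgue measure of a subset of a Euclidean space `W`. -/
noncomputable def euclVolume {W : Type*} [NormedAddCommGroup W] [InnerProductSpace ℝ W]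
    [FiniteDimensional ℝ W] [MeasurableSpace W] [BorelSpace W] (S : Set W) : ENNReal :=
  volume S

/-- The orthogonal projection of the set `K` onto the subspace `W`: the set of all `w ∈ W` such
that `x - w` is orthogonal to `W` for some `x ∈ K`. -/
def orthProj {V : Type*} [NormedAddCommGroup V] [InnerProductSpace ℝ V] (W : Submodule ℝ V)
    (K : Set V) : Set W :=
  {w : W | ∃ x ∈ K, x - (w : V) ∈ Wᗮ}

/-- The Lebesgue measure (in the Euclidean space `W`) of the orthogonal projection of `K` onto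
the subspace `W`. -/
noncomputable def projVolume {V : Type*} [NormedAddCommGroup V] [InnerProductSpace ℝ V]
    [FiniteDimensional ℝ V] [MeasurableSpace V] [BorelSpace V] (W : Submodule ℝ V) (K : Set V) :
    ENNReal :=
  euclVolume (orthProj W K)

/-- The area of the orthogonal projection of `K` onto the plane `u^⊥` (`u` a unit vector). -/
noncomputable def projArea (K : Set E3) (u : E3) : ENNReal :=
  projVolume (Submodule.span ℝ {u})ᗮ K

/-- An orientation-preserving rigid motion: `x ↦ A x + b` with `A` a linear isometry of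
determinant `1`. -/
def IsProperRigidMotion {V : Type*} [NormedAddCommGroup V] [InnerProductSpace ℝ V]
    (g : V → V) : Prop :=
  ∃ (A : V ≃ₗᵢ[ℝ] V) (b : V),
    LinearMap.det (A.toLinearEquiv : V →ₗ[ℝ] V) = 1 ∧ ∀ x, g x = A x + b

/-- `K` can be moved through the door `D`: there is a continuous path of orientation-preserving
rigid motions `g t`, `t ∈ [0,1]`, with `g 0 K` above the wall, `g 1 K` below the wall, and such
that at every time the part of the moved body in the plane `x₃ = 0` lies in `D`. -/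
def CanMoveThrough (K D : Set E3) : Prop :=
  ∃ g : unitInterval → E3 → E3,
    Continuous (fun p : unitInterval × E3 => g p.1 p.2) ∧ (∀ t, IsProperRigidMotion (g t)) ∧
    g 0 '' K ⊆ {x | 0 < x 2} ∧ g 1 '' K ⊆ {x | x 2 < 0} ∧
    ∀ t, g t '' K ∩ wallPlane ⊆ D

/-! ### The example -/

/-- The door of the example: the trapezoid `0 ≤ y ≤ 1`, `|x| ≤ 2 - y`. -/
def exDoor : Set E3 := {p | p 2 = 0 ∧ 0 ≤ p 1 ∧ p 1 ≤ 1 ∧ p 0 ≤ 2 - p 1 ∧ -p 0 ≤ 2 - p 1}

/-- The body of the example: the pyramid with base `(±2, 0, -h), (±2, -1/2, 0)` and apex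
`(0, 1, h)`, written with inequalities. -/
def exBody (h : ℝ) : Set E3 :=
  {p | -h - p 2 ≤ 2 * h * p 1 ∧ 3 * p 2 - h ≤ 2 * h * p 1 ∧ 2 * h * p 1 ≤ h + p 2 ∧
    2 * h * p 0 + 2 * h * p 1 + p 2 ≤ 3 * h ∧ -(2 * h * p 0) + 2 * h * p 1 + p 2 ≤ 3 * h}

theorem exDoor_convex : Convex ℝ exDoor := by
  intro x hx y hy a b ha hb hab
  obtain ⟨h1, h2, h3, h4, h5⟩ := hx
  obtain ⟨k1, k2, k3, k4, k5⟩ := hy
  refine ⟨?_, ?_, ?_, ?_, ?_⟩ <;> simp only [PiLp.add_apply, PiLp.smul_apply, smul_eq_mul]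
  · rw [h1, k1]; ring
  · nlinarith [mul_nonneg ha h2, mul_nonneg hb k2]
  · nlinarith [mul_nonneg ha (sub_nonneg.2 h3), mul_nonneg hb (sub_nonneg.2 k3)]
  · nlinarith [mul_nonneg ha (sub_nonneg.2 h4), mul_nonneg hb (sub_nonneg.2 k4)]
  · nlinarith [mul_nonneg ha (sub_nonneg.2 h5), mul_nonneg hb (sub_nonneg.2 k5)]

theorem exBody_convex (h : ℝ) : Convex ℝ (exBody h) := by
  intro x hx y hy a b ha hb hab
  obtain ⟨h1, h2, h3, h4, h5⟩ := hx
  obtain ⟨k1, k2, k3, k4, k5⟩ := hy
  have hb' : b = 1 - a := by linarith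
  refine ⟨?_, ?_, ?_, ?_, ?_⟩ <;> simp only [PiLp.add_apply, PiLp.smul_apply, smul_eq_mul] <;>
    subst hb'
  · linarith [mul_nonneg ha (sub_nonneg.2 h1), mul_nonneg hb (sub_nonneg.2 k1)]
  · linarith [mul_nonneg ha (sub_nonneg.2 h2), mul_nonneg hb (sub_nonneg.2 k2)]
  · linarith [mul_nonneg ha (sub_nonneg.2 h3), mul_nonneg hb (sub_nonneg.2 k3)]
  · linarith [mul_nonneg ha (sub_nonneg.2 h4), mul_nonneg hb (sub_nonneg.2 k4)]
  · linarith [mul_nonneg ha (sub_nonneg.2 h5), mul_nonneg hb (sub_nonneg.2 k5)]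

theorem continuous_coord (i : Fin 3) : Continuous (fun p : E3 => p i) := by fun_prop

theorem exDoor_closed : IsClosed exDoor := by
  have h0 := continuous_coord 0
  have h1 := continuous_coord 1
  have h2 := continuous_coord 2
  unfold exDoor
  refine IsClosed.and (isClosed_eq h2 continuous_const) ?_
  refine IsClosed.and (isClosed_le continuous_const h1) ?_
  refine IsClosed.and (isClosed_le h1 continuous_const) ?_
  refine IsClosed.and (isClosed_le h0 (by fun_prop)) ?_
  exact isClosed_le (by fun_prop) (by fun_prop)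

theorem exBody_closed (h : ℝ) : IsClosed (exBody h) := by
  unfold exBody
  refine IsClosed.and (isClosed_le (by fun_prop) (by fun_prop)) ?_
  refine IsClosed.and (isClosed_le (by fun_prop) (by fun_prop)) ?_
  refine IsClosed.and (isClosed_le (by fun_prop) (by fun_prop)) ?_
  refine IsClosed.and (isClosed_le (by fun_prop) (by fun_prop)) ?_
  exact isClosed_le (by fun_prop) (by fun_prop)

theorem isBounded_of_coords {S : Set E3} {R : ℝ} (hS : ∀ p ∈ S, ∀ i, |p i| ≤ R) :
    Bornology.IsBounded S := by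
  rw [isBounded_iff_forall_norm_le]
  refine ⟨Real.sqrt (R ^ 2 + R ^ 2 + R ^ 2), fun p hp => ?_⟩
  rw [EuclideanSpace.norm_eq, Fin.sum_univ_three]
  apply Real.sqrt_le_sqrt
  have h := hS p hp
  have e : ∀ i, ‖p i‖ ^ 2 ≤ R ^ 2 := fun i => by
    rw [Real.norm_eq_abs]
    exact pow_le_pow_left₀ (abs_nonneg _) (h i) 2
  linarith [e 0, e 1, e 2]

theorem exDoor_compact : IsCompact exDoor := by
  apply Metric.isCompact_of_isClosed_isBounded exDoor_closed
  apply isBounded_of_coords (R := 2)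
  rintro p ⟨h1, h2, h3, h4, h5⟩ i
  fin_cases i
  · simp only [Fin.zero_eta, abs_le]; constructor <;> linarith
  · simp only [Fin.mk_one, abs_le]; constructor <;> linarith
  · simp only [Fin.reduceFinMk, abs_le]; constructor <;> linarith

theorem exBody_bounds {h : ℝ} (hh : 0 < h) {p : E3} (hp : p ∈ exBody h) :
    |p 2| ≤ h ∧ |p 1| ≤ 1 ∧ |p 0| ≤ 3 := by
  obtain ⟨h1, h2, h3, h4, h5⟩ := hp
  have z1 : p 2 ≤ h := by linarith
  have z2 : -h ≤ p 2 := by linarith
  have y1 : p 1 ≤ 1 := by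
    have : 2 * h * p 1 ≤ 2 * h * 1 := by linarith
    exact le_of_mul_le_mul_left this (by linarith)
  have y2 : -1 ≤ p 1 := by
    have : 2 * h * (-1) ≤ 2 * h * p 1 := by linarith
    exact le_of_mul_le_mul_left this (by linarith)
  have x1 : p 0 ≤ 3 := by
    have : 2 * h * p 0 ≤ 2 * h * 3 := by nlinarith
    exact le_of_mul_le_mul_left this (by linarith)
  have x2 : -3 ≤ p 0 := by
    have : 2 * h * (-3) ≤ 2 * h * p 0 := by nlinarith
    exact le_of_mul_le_mul_left this (by linarith)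
  exact ⟨abs_le.2 ⟨z2, z1⟩, abs_le.2 ⟨y2, y1⟩, abs_le.2 ⟨x2, x1⟩⟩

theorem exBody_compact {h : ℝ} (hh : 0 < h) : IsCompact (exBody h) := by
  apply Metric.isCompact_of_isClosed_isBounded (exBody_closed h)
  apply isBounded_of_coords (R := h + 3)
  intro p hp i
  obtain ⟨a, b, c⟩ := exBody_bounds hh hp
  fin_cases i
  · simp only [Fin.zero_eta]; linarith
  · simp only [Fin.mk_one]; linarith
  · simp only [Fin.reduceFinMk]; linarith

theorem exBody_isConvexBody {h : ℝ} (hh : 0 < h) : IsConvexBody (exBody h) := by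
  refine ⟨exBody_compact hh, exBody_convex h, ⟨0, ?_⟩⟩
  rw [mem_interior]
  refine ⟨{p | -h - p 2 < 2 * h * p 1 ∧ 3 * p 2 - h < 2 * h * p 1 ∧ 2 * h * p 1 < h + p 2 ∧
    2 * h * p 0 + 2 * h * p 1 + p 2 < 3 * h ∧ -(2 * h * p 0) + 2 * h * p 1 + p 2 < 3 * h},
    ?_, ?_, ?_⟩
  · rintro p ⟨h1, h2, h3, h4, h5⟩
    exact ⟨h1.le, h2.le, h3.le, h4.le, h5.le⟩
  · refine IsOpen.and (isOpen_lt (by fun_prop) (by fun_prop)) ?_
    refine IsOpen.and (isOpen_lt (by fun_prop) (by fun_prop)) ?_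
    refine IsOpen.and (isOpen_lt (by fun_prop) (by fun_prop)) ?_
    refine IsOpen.and (isOpen_lt (by fun_prop) (by fun_prop)) ?_
    exact isOpen_lt (by fun_prop) (by fun_prop)
  · simp only [mem_ofPred_eq, PiLp.zero_apply]
    refine ⟨?_, ?_, ?_, ?_, ?_⟩ <;> linarith

theorem exDoor_isDoor : IsDoor exDoor := by
  refine ⟨exDoor_compact, exDoor_convex, fun p hp => hp.1, !₂[0, 1 / 2, 0], ?_, 1 / 4,
    by norm_num, ?_⟩
  · refine ⟨?_, ?_, ?_, ?_, ?_⟩ <;> simp <;> norm_num
  · rintro p ⟨hp, hp2⟩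
    rw [Metric.mem_ball, dist_eq_norm, EuclideanSpace.norm_eq, Fin.sum_univ_three,
      Real.sqrt_lt' (by norm_num)] at hp
    simp only [PiLp.sub_apply, Real.norm_eq_abs, sq_abs] at hp
    have hp' : (p 0 - 0) ^ 2 + (p 1 - 1 / 2) ^ 2 + (p 2 - 0) ^ 2 < (1 / 4) ^ 2 := hp
    have a0 : |p 0| < 1 / 4 := abs_lt_of_sq_lt_sq
      (by nlinarith [sq_nonneg (p 1 - 1 / 2), sq_nonneg (p 2 - 0)]) (by norm_num)
    have a1 : |p 1 - 1 / 2| < 1 / 4 := abs_lt_of_sq_lt_sq
      (by nlinarith [sq_nonneg (p 0 - 0), sq_nonneg (p 2 - 0)]) (by norm_num)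
    rw [abs_lt] at a0 a1
    exact ⟨hp2, by linarith, by linarith, by linarith, by linarith⟩

/-! ### The motion: a translation along a bent path -/

/-- The translation vector at time `t`. -/
noncomputable def shiftVec (h : ℝ) (t : ℝ) : E3 :=
  !₂[0, (1 - |4 * t - 2|) / 2, -(h * (4 * t - 2))]

theorem shiftVec_continuous (h : ℝ) : Continuous (shiftVec h) := by
  unfold shiftVec
  refine (PiLp.continuous_toLp 2 _).comp ?_
  refine continuous_pi fun i => ?_
  fin_cases i <;> simp <;> fun_prop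

theorem canMoveThrough_ex {h : ℝ} (hh : 0 < h) : CanMoveThrough (exBody h) exDoor := by
  refine ⟨fun t x => x + shiftVec h t, ?_, ?_, ?_, ?_, ?_⟩
  · have := shiftVec_continuous h
    fun_prop
  · intro t
    refine ⟨LinearIsometryEquiv.refl ℝ E3, shiftVec h t, ?_, fun x => rfl⟩
    have : ((LinearIsometryEquiv.refl ℝ E3).toLinearEquiv : E3 →ₗ[ℝ] E3) = LinearMap.id := by
      ext x i
      rfl
    rw [this, LinearMap.det_id]
  · rintro _ ⟨p, hp, rfl⟩
    have hb := exBody_bounds hh hp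
    have h2 := (abs_le.1 hb.1).1
    show 0 < p 2 + (shiftVec h ((0 : unitInterval) : ℝ)) 2
    have : (shiftVec h ((0 : unitInterval) : ℝ)) 2 = 2 * h := by
      show -(h * (4 * ((0 : unitInterval) : ℝ) - 2)) = 2 * h
      simp; ring
    rw [this]; linarith
  · rintro _ ⟨p, hp, rfl⟩
    have hb := exBody_bounds hh hp
    have h2 := (abs_le.1 hb.1).2
    show p 2 + (shiftVec h ((1 : unitInterval) : ℝ)) 2 < 0
    have : (shiftVec h ((1 : unitInterval) : ℝ)) 2 = -(2 * h) := by
      show -(h * (4 * ((1 : unitInterval) : ℝ) - 2)) = -(2 * h)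
      simp; ring
    rw [this]; linarith
  · rintro t _ ⟨⟨p, hp, rfl⟩, hw⟩
    have hw' : p 2 + -(h * (4 * (t : ℝ) - 2)) = 0 := hw
    obtain ⟨h1, h2, h3, h4, h5⟩ := hp
    set s : ℝ := 4 * (t : ℝ) - 2 with hs
    have hz : p 2 = h * s := by linarith
    rw [hz] at h1 h2 h3 h4 h5
    have g1 : -1 / 2 - s / 2 ≤ p 1 := by
      have : 2 * h * (-1 / 2 - s / 2) ≤ 2 * h * p 1 := by linarith
      exact le_of_mul_le_mul_left this (by linarith)
    have g2 : -1 / 2 + 3 * s / 2 ≤ p 1 := by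
      have : 2 * h * (-1 / 2 + 3 * s / 2) ≤ 2 * h * p 1 := by linarith
      exact le_of_mul_le_mul_left this (by linarith)
    have g3 : p 1 ≤ 1 / 2 + s / 2 := by
      have : 2 * h * p 1 ≤ 2 * h * (1 / 2 + s / 2) := by linarith
      exact le_of_mul_le_mul_left this (by linarith)
    have g4 : p 0 ≤ 3 / 2 - p 1 - s / 2 := by
      have : 2 * h * p 0 ≤ 2 * h * (3 / 2 - p 1 - s / 2) := by linarith
      exact le_of_mul_le_mul_left this (by linarith)
    have g5 : -p 0 ≤ 3 / 2 - p 1 - s / 2 := by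
      have : 2 * h * (-p 0) ≤ 2 * h * (3 / 2 - p 1 - s / 2) := by linarith
      exact le_of_mul_le_mul_left this (by linarith)
    have q0 : (p + shiftVec h t) 0 = p 0 := by
      show p 0 + (0 : ℝ) = p 0
      ring
    have q1 : (p + shiftVec h t) 1 = p 1 + (1 - |s|) / 2 := rfl
    refine ⟨hw, ?_, ?_, ?_, ?_⟩
    · show 0 ≤ (p + shiftVec h t) 1
      rw [q1]
      rcases abs_cases s with ⟨e, _⟩ | ⟨e, _⟩ <;> rw [e] <;> linarith
    · show (p + shiftVec h t) 1 ≤ 1
      rw [q1]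
      rcases abs_cases s with ⟨e, _⟩ | ⟨e, _⟩ <;> rw [e] <;> linarith
    · show (p + shiftVec h t) 0 ≤
        2 - (p + shiftVec h t) 1
      rw [q1, q0]
      rcases abs_cases s with ⟨e, _⟩ | ⟨e, _⟩ <;> rw [e] <;> linarith
    · show -(p + shiftVec h t) 0 ≤
        2 - (p + shiftVec h t) 1
      rw [q1, q0]
      rcases abs_cases s with ⟨e, _⟩ | ⟨e, _⟩ <;> rw [e] <;> linarith

/-! ### Lower bounds for areas of projections -/

/-- The triple product `u · (e₁ × e₂)`. -/
def det3 (u e f : E3) : ℝ :=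
  u 0 * (e 1 * f 2 - e 2 * f 1) + u 1 * (e 2 * f 0 - e 0 * f 2) + u 2 * (e 0 * f 1 - e 1 * f 0)

theorem inner_eq (x y : E3) : inner ℝ x y = x 0 * y 0 + x 1 * y 1 + x 2 * y 2 := by
  rw [PiLp.inner_apply, Fin.sum_univ_three]
  simp [mul_comm]

theorem gram_aux (f g u e k : E3)
    (hff : inner ℝ f f = (1 : ℝ)) (hgg : inner ℝ g g = (1 : ℝ)) (huu : inner ℝ u u = (1 : ℝ))
    (hfg : inner ℝ f g = (0 : ℝ)) (hfu : inner ℝ f u = (0 : ℝ)) (hgu : inner ℝ g u = (0 : ℝ)) :
    |(inner ℝ f e : ℝ) * (inner ℝ g k) - (inner ℝ f k) * (inner ℝ g e)| = |det3 u e k| := by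
  simp only [inner_eq] at *
  set M : Matrix (Fin 3) (Fin 3) ℝ := !![f 0, f 1, f 2; g 0, g 1, g 2; u 0, u 1, u 2] with hM
  have hMM : M * M.transpose = 1 := by
    ext i j
    fin_cases i <;> fin_cases j <;>
      simp [hM, Matrix.mul_apply, Fin.sum_univ_three] <;> linarith
  have hMM' : M.transpose * M = 1 := mul_eq_one_comm.1 hMM
  have E : ∀ i j, (M.transpose * M) i j = (1 : Matrix (Fin 3) (Fin 3) ℝ) i j := fun i j => by
    rw [hMM']
  have e00 := E 0 0
  have e01 := E 0 1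
  have e02 := E 0 2
  have e11 := E 1 1
  have e12 := E 1 2
  have e22 := E 2 2
  simp [hM, Matrix.mul_apply, Fin.sum_univ_three] at e00 e01 e02 e11 e12 e22
  set n0 := f 1 * g 2 - f 2 * g 1 with hn0
  set n1 := f 2 * g 0 - f 0 * g 2 with hn1
  set n2 := f 0 * g 1 - f 1 * g 0 with hn2
  set c := n0 * u 0 + n1 * u 1 + n2 * u 2 with hc
  have k0 : n0 = c * u 0 := by
    rw [hc, hn0, hn1, hn2]
    linear_combination (-n0) * e00 - n1 * e01 - n2 * e02
  have k1 : n1 = c * u 1 := by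
    rw [hc, hn0, hn1, hn2]
    linear_combination (-n0) * e01 - n1 * e11 - n2 * e12
  have k2 : n2 = c * u 2 := by
    rw [hc, hn0, hn1, hn2]
    linear_combination (-n0) * e02 - n1 * e12 - n2 * e22
  have hc2 : c ^ 2 = 1 := by
    have h1 : n0 ^ 2 + n1 ^ 2 + n2 ^ 2 = 1 := by
      rw [hn0, hn1, hn2]
      linear_combination (g 0 * g 0 + g 1 * g 1 + g 2 * g 2) * hff + hgg -
        (f 0 * g 0 + f 1 * g 1 + f 2 * g 2) * hfg
    rw [k0, k1, k2] at h1
    linear_combination h1 - c ^ 2 * huu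
  have hF : (f 0 * e 0 + f 1 * e 1 + f 2 * e 2) * (g 0 * k 0 + g 1 * k 1 + g 2 * k 2) -
      (f 0 * k 0 + f 1 * k 1 + f 2 * k 2) * (g 0 * e 0 + g 1 * e 1 + g 2 * e 2) =
      c * det3 u e k := by
    have : (f 0 * e 0 + f 1 * e 1 + f 2 * e 2) * (g 0 * k 0 + g 1 * k 1 + g 2 * k 2) -
      (f 0 * k 0 + f 1 * k 1 + f 2 * k 2) * (g 0 * e 0 + g 1 * e 1 + g 2 * e 2) =
      n0 * (e 1 * k 2 - e 2 * k 1) + n1 * (e 2 * k 0 - e 0 * k 2) +
        n2 * (e 0 * k 1 - e 1 * k 0) := by
      rw [hn0, hn1, hn2]; ring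
    rw [this, det3]
    linear_combination (e 1 * k 2 - e 2 * k 1) * k0 + (e 2 * k 0 - e 0 * k 2) * k1 +
      (e 0 * k 1 - e 1 * k 0) * k2
  rw [hF, abs_mul]
  have : |c| = 1 := by
    rw [← Real.sqrt_sq_eq_abs, hc2, Real.sqrt_one]
  rw [this, one_mul]

theorem projArea_lower {K : Set E3} {u : E3} (hu : ‖u‖ = 1) (p e k : E3) (S : Set (ℝ × ℝ))
    (hS : ∀ s ∈ S, ∃ x ∈ K, ∃ t : ℝ, x + t • u = p + s.1 • e + s.2 • k) :
    ENNReal.ofReal |det3 u e k| * volume S ≤ projArea K u := by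
  set W : Submodule ℝ E3 := (Submodule.span ℝ {u})ᗮ with hW
  have hu0 : u ≠ 0 := by
    intro h; rw [h, norm_zero] at hu; exact zero_ne_one hu
  have : Fact (Module.finrank ℝ E3 = 2 + 1) := ⟨by simp⟩
  have hfin : Module.finrank ℝ W = 2 := Submodule.finrank_orthogonal_span_singleton hu0
  let b : OrthonormalBasis (Fin 2) ℝ W := (stdOrthonormalBasis ℝ W).reindex (finCongr hfin)
  -- measure preserving equivalence with the plane
  let ψ : W ≃ᵐ ℝ × ℝ := b.repr.toMeasurableEquiv.trans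
    ((MeasurableEquiv.toLp 2 (Fin 2 → ℝ)).symm.trans MeasurableEquiv.finTwoArrow)
  have hψ : MeasurePreserving ψ volume volume := by
    have h1 := b.measurePreserving_repr
    have h2 := EuclideanSpace.volume_preserving_symm_measurableEquiv_toLp (Fin 2)
    have h3 := MeasureTheory.volume_preserving_finTwoArrow ℝ
    exact (h3.comp (h2.comp h1))
  let P : E3 →L[ℝ] W := W.orthogonalProjectionOnto
  have hPu : P u = 0 := by
    apply (Submodule.orthogonalProjectionOnto_eq_zero_iff).2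
    rw [hW, Submodule.orthogonal_orthogonal]
    exact Submodule.mem_span_singleton_self u
  have hψP : ∀ x : E3, ψ (P x) = (inner ℝ (b 0 : E3) x, inner ℝ (b 1 : E3) x) := by
    intro x
    have h := fun i => Submodule.inner_orthogonalProjectionOnto_eq_of_mem_left (b i) x
    have h' : ∀ i, (b.repr (P x)) i = inner ℝ (b i : E3) x := fun i => by
      rw [OrthonormalBasis.repr_apply_apply]; exact h i
    exact Prod.ext (h' 0) (h' 1)
  let L : ℝ × ℝ →ₗ[ℝ] ℝ × ℝ := Matrix.toLin (Module.Basis.finTwoProd ℝ) (Module.Basis.finTwoProd ℝ)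
    !![inner ℝ (b 0 : E3) e, inner ℝ (b 0 : E3) k; inner ℝ (b 1 : E3) e, inner ℝ (b 1 : E3) k]
  have hL : ∀ s, L s = (inner ℝ (b 0 : E3) e * s.1 + inner ℝ (b 0 : E3) k * s.2,
      inner ℝ (b 1 : E3) e * s.1 + inner ℝ (b 1 : E3) k * s.2) := fun s =>
    Matrix.toLin_finTwoProd_apply _ _ _ _ _
  have hdet : |LinearMap.det L| = |det3 u e k| := by
    rw [LinearMap.det_toLin, Matrix.det_fin_two_of]
    have hb := b.orthonormal
    have hbn : ∀ i, inner ℝ (b i : E3) (b i : E3) = (1 : ℝ) := fun i => by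
      have := hb.1 i
      rw [real_inner_self_eq_norm_sq, ← Submodule.coe_norm, this]; norm_num
    have hbu : ∀ i, inner ℝ (b i : E3) u = (0 : ℝ) := fun i => by
      have h2 : (b i : E3) ∈ (Submodule.span ℝ {u})ᗮ := (b i).2
      rw [real_inner_comm]
      exact Submodule.mem_orthogonal_singleton_iff_inner_right.1 h2
    apply gram_aux (b 0 : E3) (b 1 : E3) u e k (hbn 0) (hbn 1)
    · rw [real_inner_self_eq_norm_sq, hu]; norm_num
    · exact hb.2 (by decide)
    · exact hbu 0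
    · exact hbu 1
  have hvol : volume ((fun y => ψ (P p) + y) '' (L '' S)) = ENNReal.ofReal |det3 u e k| * volume S := by
    rw [Set.image_add_left, measure_preimage_add, Measure.addHaar_image_linearMap, hdet]
  rw [← hvol, ← hψ.measure_preimage_equiv]
  unfold projArea projVolume euclVolume
  apply measure_mono
  rintro w ⟨_, ⟨s, hs, rfl⟩, hsw⟩
  obtain ⟨x, hx, t, hxt⟩ := hS s hs
  refine ⟨x, hx, ?_⟩
  suffices hw : P x = w by
    rw [← hw]
    exact Submodule.sub_starProjection_mem_orthogonal x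
  apply ψ.injective
  rw [← hsw]
  change ψ (P x) = ψ (P p) + L s
  have hPx : P x = P (p + s.1 • e + s.2 • k) := by
    rw [← hxt, map_add, map_smul, hPu, smul_zero, add_zero]
  rw [hPx, hψP, hψP, hL]
  ext
  · simp only [inner_add_right, inner_smul_right, Prod.fst_add]; ring
  · simp only [inner_add_right, inner_smul_right, Prod.snd_add]; ring


theorem vol_tri (m : ℝ → ℝ) (hm : Continuous m) {c d : ℝ} (hcd : c < d) :
    volume (regionBetween (fun y => m y - 2 * (1 - (y - c) / (d - c)))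
      (fun y => m y + 2 * (1 - (y - c) / (d - c))) (Ioc c d)) = ENNReal.ofReal (2 * (d - c)) := by
  rw [Measure.volume_eq_prod, volume_regionBetween_eq_integral]
  · congr 1
    rw [← intervalIntegral.integral_of_le hcd.le]
    have hne : d - c ≠ 0 := by linarith
    have : ∀ y, ((fun y => m y + 2 * (1 - (y - c) / (d - c))) -
        (fun y => m y - 2 * (1 - (y - c) / (d - c)))) y = (4 + 4 * c / (d - c)) - (4 / (d - c)) * y := by
      intro y
      simp only [Pi.sub_apply]
      field_simp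
      ring
    simp_rw [this]
    rw [intervalIntegral.integral_sub (by simp) (by apply Continuous.intervalIntegrable; fun_prop),
      intervalIntegral.integral_const, intervalIntegral.integral_const_mul, integral_id, smul_eq_mul]
    field_simp
    ring
  · exact (Continuous.integrableOn_Ioc (by fun_prop))
  · exact (Continuous.integrableOn_Ioc (by fun_prop))
  · exact measurableSet_Ioc
  · intro y hy
    have : (y - c) / (d - c) ≤ 1 := by
      rw [div_le_one (by linarith)]; linarith [hy.2]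
    linarith

theorem vol_par (m : ℝ → ℝ) (hm : Continuous m) {c d : ℝ} (hcd : c ≤ d) :
    volume (regionBetween (fun y => m y - 2) (fun y => m y + 2) (Ioc c d)) =
      ENNReal.ofReal (4 * (d - c)) := by
  rw [Measure.volume_eq_prod, volume_regionBetween_eq_integral]
  · congr 1
    rw [← intervalIntegral.integral_of_le hcd]
    have : ∀ y, ((fun y => m y + 2) - (fun y => m y - 2)) y = 4 := by
      intro y
      simp only [Pi.sub_apply]
      ring
    simp_rw [this]
    rw [intervalIntegral.integral_const, smul_eq_mul, mul_comm]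
  · exact (Continuous.integrableOn_Ioc (by fun_prop))
  · exact (Continuous.integrableOn_Ioc (by fun_prop))
  · exact measurableSet_Ioc
  · intro y hy
    linarith

theorem area_lower {a b : ℝ} {S : Set (ℝ × ℝ)}
    (h1 : ∀ τ x : ℝ, 0 ≤ τ → τ ≤ 1 → |x| ≤ 2 → (-(1 - τ) / 2 + τ * b, x + τ * a) ∈ S)
    (h2 : ∀ τ x : ℝ, 0 ≤ τ → τ ≤ 1 → |x| ≤ 2 * (1 - τ) →
      (τ + (1 - 2 * τ) * b, x + (1 - 2 * τ) * a) ∈ S)
    (h3 : ∀ τ x : ℝ, 0 ≤ τ → τ ≤ 1 → |x| ≤ 2 * (1 - τ) →
      (-1 / 2 + 3 / 2 * τ - τ * b, x - τ * a) ∈ S) :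
    ENNReal.ofReal 4 ≤ volume S := by
  rcases le_or_gt (1 / 2) b with hb | hb
  · -- parallelogram
    have hv := vol_par (fun y => (y + 1 / 2) / (b + 1 / 2) * a) (by fun_prop)
      (c := -1 / 2) (d := 1 / 2) (by norm_num)
    have e : (4 : ℝ) = 4 * (1 / 2 - -1 / 2) := by norm_num
    rw [e, ← hv]
    apply measure_mono
    rintro ⟨y, x⟩ ⟨hy, hx1, hx2⟩
    simp only [mem_Ioc] at hy
    simp only at hx1 hx2
    have hb0 : 0 < b + 1 / 2 := by linarith
    have hτ0 : 0 ≤ (y + 1 / 2) / (b + 1 / 2) := div_nonneg (by linarith [hy.1]) hb0.le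
    have hτ1 : (y + 1 / 2) / (b + 1 / 2) ≤ 1 := by rw [div_le_one hb0]; linarith [hy.2]
    have := h1 ((y + 1 / 2) / (b + 1 / 2)) (x - (y + 1 / 2) / (b + 1 / 2) * a) hτ0 hτ1
      (abs_le.2 ⟨by linarith, by linarith⟩)
    have e1 : -(1 - (y + 1 / 2) / (b + 1 / 2)) / 2 + (y + 1 / 2) / (b + 1 / 2) * b = y := by
      have := div_mul_cancel₀ (y + 1 / 2) hb0.ne'
      linarith
    rw [e1, sub_add_cancel] at this
    exact this
  rcases lt_or_ge (-1 / 2) b with hb' | hb'
  · -- parallelogram and triangle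
    have hv1 := vol_par (fun y => (y + 1 / 2) / (b + 1 / 2) * a) (by fun_prop)
      (c := -1 / 2) (d := b) hb'.le
    have hv2 := vol_tri (fun y => (1 - 2 * ((y - b) / (1 - b - b))) * a) (by fun_prop)
      (c := b) (d := 1 - b) (by linarith)
    set R1 := regionBetween (fun y => (y + 1 / 2) / (b + 1 / 2) * a - 2)
      (fun y => (y + 1 / 2) / (b + 1 / 2) * a + 2) (Ioc (-1 / 2) b) with hR1
    set R2 := regionBetween
      (fun y => (1 - 2 * ((y - b) / (1 - b - b))) * a - 2 * (1 - (y - b) / (1 - b - b)))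
      (fun y => (1 - 2 * ((y - b) / (1 - b - b))) * a + 2 * (1 - (y - b) / (1 - b - b)))
      (Ioc b (1 - b)) with hR2
    have hmeas : MeasurableSet R2 := by
      apply measurableSet_regionBetween _ _ measurableSet_Ioc
      · exact Continuous.measurable (by fun_prop)
      · exact Continuous.measurable (by fun_prop)
    have hdis : Disjoint R1 R2 := by
      rw [Set.disjoint_left]
      rintro ⟨y, x⟩ hy1 hy2
      have := hy1.1.2
      have := hy2.1.1
      simp only at *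
      linarith
    have hsum : volume (R1 ∪ R2) = ENNReal.ofReal 4 := by
      rw [measure_union hdis hmeas, hv1, hv2, ← ENNReal.ofReal_add (by linarith) (by linarith)]
      congr 1; ring
    rw [← hsum]
    apply measure_mono
    rintro ⟨y, x⟩ (⟨hy, hx1, hx2⟩ | ⟨hy, hx1, hx2⟩)
    · simp only [mem_Ioc] at hy
      simp only at hx1 hx2
      have hb0 : 0 < b + 1 / 2 := by linarith
      have hτ0 : 0 ≤ (y + 1 / 2) / (b + 1 / 2) := div_nonneg (by linarith [hy.1]) hb0.le
      have hτ1 : (y + 1 / 2) / (b + 1 / 2) ≤ 1 := by rw [div_le_one hb0]; linarith [hy.2]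
      have := h1 ((y + 1 / 2) / (b + 1 / 2)) (x - (y + 1 / 2) / (b + 1 / 2) * a) hτ0 hτ1
        (abs_le.2 ⟨by linarith, by linarith⟩)
      have e1 : -(1 - (y + 1 / 2) / (b + 1 / 2)) / 2 + (y + 1 / 2) / (b + 1 / 2) * b = y := by
        have := div_mul_cancel₀ (y + 1 / 2) hb0.ne'
        linarith
      rw [e1, sub_add_cancel] at this
      exact this
    · simp only [mem_Ioc] at hy
      simp only at hx1 hx2
      have hb0 : 0 < 1 - b - b := by linarith
      have hτ0 : 0 ≤ (y - b) / (1 - b - b) := div_nonneg (by linarith [hy.1]) hb0.le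
      have hτ1 : (y - b) / (1 - b - b) ≤ 1 := by rw [div_le_one hb0]; linarith [hy.2]
      have := h2 ((y - b) / (1 - b - b)) (x - (1 - 2 * ((y - b) / (1 - b - b))) * a) hτ0 hτ1
        (abs_le.2 ⟨by linarith, by linarith⟩)
      have e1 : (y - b) / (1 - b - b) + (1 - 2 * ((y - b) / (1 - b - b))) * b = y := by
        have := div_mul_cancel₀ (y - b) hb0.ne'
        linarith
      rw [e1, sub_add_cancel] at this
      exact this
  · -- triangle
    have hv2 := vol_tri (fun y => -((y - -1 / 2) / (1 - b - -1 / 2)) * a) (by fun_prop)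
      (c := -1 / 2) (d := 1 - b) (by linarith)
    refine le_trans ?_ (le_trans hv2.ge (measure_mono ?_))
    · apply ENNReal.ofReal_le_ofReal; linarith
    · rintro ⟨y, x⟩ ⟨hy, hx1, hx2⟩
      simp only [mem_Ioc] at hy
      simp only at hx1 hx2
      have hb0 : 0 < 1 - b - -1 / 2 := by linarith
      have hτ0 : 0 ≤ (y - -1 / 2) / (1 - b - -1 / 2) := div_nonneg (by linarith [hy.1]) hb0.le
      have hτ1 : (y - -1 / 2) / (1 - b - -1 / 2) ≤ 1 := by rw [div_le_one hb0]; linarith [hy.2]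
      have := h3 ((y - -1 / 2) / (1 - b - -1 / 2)) (x + (y - -1 / 2) / (1 - b - -1 / 2) * a) hτ0 hτ1
        (abs_le.2 ⟨by linarith, by linarith⟩)
      have e1 : -1 / 2 + 3 / 2 * ((y - -1 / 2) / (1 - b - -1 / 2)) -
          (y - -1 / 2) / (1 - b - -1 / 2) * b = y := by
        have := div_mul_cancel₀ (y - -1 / 2) hb0.ne'
        linarith
      rw [e1, add_sub_cancel_right] at this
      exact this


/-- Projections in directions that are not horizontal. -/
theorem proj_lower_vert {h : ℝ} (hh : 0 < h) {u : E3} (hu : ‖u‖ = 1) (hu2 : u 2 ≠ 0) :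
    ENNReal.ofReal |u 2| * ENNReal.ofReal 4 ≤ projArea (exBody h) u := by
  set e : E3 := !₂[0, 1, 0] with he
  set k : E3 := !₂[1, 0, 0] with hk
  have hdet : |det3 u e k| = |u 2| := by
    have : det3 u e k = -u 2 := by
      show u 0 * ((1 : ℝ) * 0 - 0 * 0) + u 1 * ((0 : ℝ) * 1 - 0 * 0) +
        u 2 * ((0 : ℝ) * 0 - 1 * 1) = -u 2
      ring
    rw [this, abs_neg]
  have h1 := projArea_lower (K := exBody h) hu 0 e k
    {s | ∃ x ∈ exBody h, ∃ t : ℝ, x + t • u = 0 + s.1 • e + s.2 • k} (fun s hs => hs)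
  rw [hdet] at h1
  refine le_trans ?_ h1
  gcongr
  -- the key point: `x + t • u` for a point `x` at height `z` with `t = - z / u₃`
  have key : ∀ X Y Z : ℝ, (!₂[X, Y, Z] : E3) ∈ exBody h →
      ((Y - Z * (u 1 / u 2), X - Z * (u 0 / u 2)) : ℝ × ℝ) ∈
        {s : ℝ × ℝ | ∃ x ∈ exBody h, ∃ t : ℝ, x + t • u = 0 + s.1 • e + s.2 • k} := by
    intro X Y Z hX
    refine ⟨_, hX, -(Z / u 2), ?_⟩
    ext i
    fin_cases i
    · show X + -(Z / u 2) * u 0 = 0 + (Y - Z * (u 1 / u 2)) * 0 + (X - Z * (u 0 / u 2)) * 1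
      ring
    · show Y + -(Z / u 2) * u 1 = 0 + (Y - Z * (u 1 / u 2)) * 1 + (X - Z * (u 0 / u 2)) * 0
      ring
    · show Z + -(Z / u 2) * u 2 = 0 + (Y - Z * (u 1 / u 2)) * 0 + (X - Z * (u 0 / u 2)) * 0
      field_simp
      ring
  apply area_lower (a := h * (u 0 / u 2)) (b := h * (u 1 / u 2))
  · intro τ x h0 h1 hx
    rw [abs_le] at hx
    have := key x (-(1 - τ) / 2) (-τ * h) ?_
    · convert this using 2 <;> ring
    · refine ⟨?_, ?_, ?_, ?_, ?_⟩
      · show -h - (-τ * h) ≤ 2 * h * (-(1 - τ) / 2)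
        nlinarith
      · show 3 * (-τ * h) - h ≤ 2 * h * (-(1 - τ) / 2)
        nlinarith
      · show 2 * h * (-(1 - τ) / 2) ≤ h + (-τ * h)
        nlinarith
      · show 2 * h * x + 2 * h * (-(1 - τ) / 2) + (-τ * h) ≤ 3 * h
        nlinarith
      · show -(2 * h * x) + 2 * h * (-(1 - τ) / 2) + (-τ * h) ≤ 3 * h
        nlinarith
  · intro τ x h0 h1 hx
    rw [abs_le] at hx
    have := key x τ ((2 * τ - 1) * h) ?_
    · convert this using 2 <;> ring
    · refine ⟨?_, ?_, ?_, ?_, ?_⟩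
      · show -h - ((2 * τ - 1) * h) ≤ 2 * h * τ
        nlinarith
      · show 3 * ((2 * τ - 1) * h) - h ≤ 2 * h * τ
        nlinarith
      · show 2 * h * τ ≤ h + ((2 * τ - 1) * h)
        nlinarith
      · show 2 * h * x + 2 * h * τ + ((2 * τ - 1) * h) ≤ 3 * h
        nlinarith
      · show -(2 * h * x) + 2 * h * τ + ((2 * τ - 1) * h) ≤ 3 * h
        nlinarith
  · intro τ x h0 h1 hx
    rw [abs_le] at hx
    have := key x (-1 / 2 + 3 / 2 * τ) (τ * h) ?_
    · convert this using 2 <;> ring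
    · refine ⟨?_, ?_, ?_, ?_, ?_⟩
      · show -h - (τ * h) ≤ 2 * h * (-1 / 2 + 3 / 2 * τ)
        nlinarith
      · show 3 * (τ * h) - h ≤ 2 * h * (-1 / 2 + 3 / 2 * τ)
        nlinarith
      · show 2 * h * (-1 / 2 + 3 / 2 * τ) ≤ h + (τ * h)
        nlinarith
      · show 2 * h * x + 2 * h * (-1 / 2 + 3 / 2 * τ) + (τ * h) ≤ 3 * h
        nlinarith
      · show -(2 * h * x) + 2 * h * (-1 / 2 + 3 / 2 * τ) + (τ * h) ≤ 3 * h
        nlinarith

/-- Projections seen from the base rectangle. -/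
theorem proj_lower_base {h : ℝ} (hh : 0 < h) {u : E3} (hu : ‖u‖ = 1) :
    ENNReal.ofReal |h * u 1 + u 2 / 2| * ENNReal.ofReal 4 ≤ projArea (exBody h) u := by
  have hdet : det3 u !₂[1, 0, 0] !₂[0, 1 / 2, -h] = h * u 1 + u 2 / 2 := by
    show u 0 * ((0 : ℝ) * (-h) - 0 * (1 / 2)) + u 1 * ((0 : ℝ) * 0 - 1 * (-h)) +
      u 2 * ((1 : ℝ) * (1 / 2) - 0 * 0) = _
    ring
  have hv : volume (Icc (-2 : ℝ) 2 ×ˢ Icc (0 : ℝ) 1) = ENNReal.ofReal 4 := by
    rw [Measure.volume_eq_prod, Measure.prod_prod, Real.volume_Icc, Real.volume_Icc,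
      ← ENNReal.ofReal_mul (by norm_num)]
    norm_num
  have := projArea_lower (K := exBody h) hu !₂[0, -1 / 2, 0] !₂[1, 0, 0] !₂[0, 1 / 2, -h]
    (Icc (-2 : ℝ) 2 ×ˢ Icc (0 : ℝ) 1) ?_
  · rw [hdet, hv] at this
    exact this
  · rintro ⟨x, τ⟩ ⟨⟨hx1, hx2⟩, ⟨h0, h1⟩⟩
    simp only at hx1 hx2 h0 h1
    refine ⟨!₂[x, -1 / 2 + τ / 2, -τ * h], ?_, 0, ?_⟩
    · refine ⟨?_, ?_, ?_, ?_, ?_⟩
      · show -h - (-τ * h) ≤ 2 * h * (-1 / 2 + τ / 2)
        nlinarith
      · show 3 * (-τ * h) - h ≤ 2 * h * (-1 / 2 + τ / 2)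
        nlinarith
      · show 2 * h * (-1 / 2 + τ / 2) ≤ h + (-τ * h)
        nlinarith
      · show 2 * h * x + 2 * h * (-1 / 2 + τ / 2) + (-τ * h) ≤ 3 * h
        nlinarith
      · show -(2 * h * x) + 2 * h * (-1 / 2 + τ / 2) + (-τ * h) ≤ 3 * h
        nlinarith
    · ext i
      fin_cases i
      · show x + 0 * u 0 = 0 + x * 1 + τ * 0
        ring
      · show -1 / 2 + τ / 2 + 0 * u 1 = -1 / 2 + x * 0 + τ * (1 / 2)
        ring
      · show -τ * h + 0 * u 2 = 0 + x * 0 + τ * (-h)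
        ring

/-- Projections seen from the section `x = 0`. -/
theorem proj_lower_side {h : ℝ} (hh : 0 < h) {u : E3} (hu : ‖u‖ = 1) :
    ENNReal.ofReal |u 0| * ENNReal.ofReal (h / 6) ≤ projArea (exBody h) u := by
  have hdet : det3 u !₂[0, 1, 0] !₂[0, 0, 1] = u 0 := by
    show u 0 * ((1 : ℝ) * 1 - 0 * 0) + u 1 * ((0 : ℝ) * 0 - 0 * 1) +
      u 2 * ((0 : ℝ) * 0 - 1 * 0) = _
    ring
  have hv : volume (Icc (-1 / 4 : ℝ) (1 / 4) ×ˢ Icc (-h / 6 : ℝ) (h / 6)) =
      ENNReal.ofReal (h / 6) := by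
    rw [Measure.volume_eq_prod, Measure.prod_prod, Real.volume_Icc, Real.volume_Icc,
      ← ENNReal.ofReal_mul (by norm_num)]
    congr 1; ring
  have := projArea_lower (K := exBody h) hu 0 !₂[0, 1, 0] !₂[0, 0, 1]
    (Icc (-1 / 4 : ℝ) (1 / 4) ×ˢ Icc (-h / 6 : ℝ) (h / 6)) ?_
  · rw [hdet, hv] at this
    exact this
  · rintro ⟨y, z⟩ ⟨⟨hy1, hy2⟩, ⟨hz1, hz2⟩⟩
    simp only at hy1 hy2 hz1 hz2
    refine ⟨!₂[0, y, z], ?_, 0, ?_⟩
    · refine ⟨?_, ?_, ?_, ?_, ?_⟩
      · show -h - z ≤ 2 * h * y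
        nlinarith
      · show 3 * z - h ≤ 2 * h * y
        nlinarith
      · show 2 * h * y ≤ h + z
        nlinarith
      · show 2 * h * 0 + 2 * h * y + z ≤ 3 * h
        nlinarith
      · show -(2 * h * 0) + 2 * h * y + z ≤ 3 * h
        nlinarith
    · ext i
      fin_cases i
      · show 0 + 0 * u 0 = 0 + y * 0 + z * 0
        ring
      · show y + 0 * u 1 = 0 + y * 1 + z * 0
        ring
      · show z + 0 * u 2 = 0 + y * 0 + z * 1
        ring

/-- The door of the example has area `3`. -/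
theorem doorArea_ex : doorArea exDoor = ENNReal.ofReal 3 := by
  have h1 : MeasurePreserving
      (MeasurableEquiv.finTwoArrow ∘ (MeasurableEquiv.toLp 2 (Fin 2 → ℝ)).symm)
      (volume : Measure E2) (volume : Measure (ℝ × ℝ)) :=
    (MeasureTheory.volume_preserving_finTwoArrow ℝ).comp
      (EuclideanSpace.volume_preserving_symm_measurableEquiv_toLp (Fin 2))
  let S : Set (ℝ × ℝ) := {s | s.1 ∈ Icc (-2 : ℝ) 2 ∧ s.2 ∈ Icc (0 : ℝ) 1 ∧ s.1 ≤ 2 - s.2 ∧
    -s.1 ≤ 2 - s.2}
  have hS : MeasurableSet S := by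
    apply IsClosed.measurableSet
    refine IsClosed.and (isClosed_Icc.preimage continuous_fst) ?_
    refine IsClosed.and (isClosed_Icc.preimage continuous_snd) ?_
    refine IsClosed.and (isClosed_le (by fun_prop) (by fun_prop)) ?_
    exact isClosed_le (by fun_prop) (by fun_prop)
  have h2 : {y : E2 | (!₂[y 0, y 1, 0] : E3) ∈ exDoor} =
      (MeasurableEquiv.finTwoArrow ∘ (MeasurableEquiv.toLp 2 (Fin 2 → ℝ)).symm) ⁻¹' S := by
    ext y
    constructor
    · rintro ⟨_, a1, a2, a3, a4⟩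
      have b1 : 0 ≤ y 1 := a1
      have b2 : y 1 ≤ 1 := a2
      have b3 : y 0 ≤ 2 - y 1 := a3
      have b4 : -y 0 ≤ 2 - y 1 := a4
      exact ⟨⟨by show -2 ≤ y 0; linarith, by show y 0 ≤ 2; linarith⟩, ⟨b1, b2⟩, b3, b4⟩
    · rintro ⟨_, ⟨a1, a2⟩, a3, a4⟩
      exact ⟨rfl, a1, a2, a3, a4⟩
  unfold doorArea
  rw [h2, h1.measure_preimage hS.nullMeasurableSet, Measure.volume_eq_prod,
    Measure.prod_apply_symm hS]
  have h3 : ∀ y : ℝ, volume ((fun x => (x, y)) ⁻¹' S) =
      (Icc (0 : ℝ) 1).indicator (fun y => ENNReal.ofReal (4 - 2 * y)) y := by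
    intro y
    by_cases hy : y ∈ Icc (0 : ℝ) 1
    · rw [Set.indicator_of_mem hy]
      have : ((fun x => (x, y)) ⁻¹' S) = Icc (-(2 - y)) (2 - y) := by
        ext x
        constructor
        · rintro ⟨_, _, a3, a4⟩
          simp only at a3 a4
          exact ⟨by linarith, a3⟩
        · rintro ⟨a1, a2⟩
          exact ⟨⟨by linarith [hy.1], by linarith [hy.1]⟩, hy, a2, by simp only; linarith⟩
      rw [this, Real.volume_Icc]
      congr 1; ring
    · rw [Set.indicator_of_notMem hy]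
      have : ((fun x => (x, y)) ⁻¹' S) = ∅ := by
        ext x
        constructor
        · rintro ⟨_, a, _, _⟩; exact hy a
        · intro h; exact h.elim
      rw [this, measure_empty]
  simp_rw [h3]
  rw [lintegral_indicator measurableSet_Icc, ← ofReal_integral_eq_lintegral_ofReal]
  · congr 1
    rw [integral_Icc_eq_integral_Ioc, ← intervalIntegral.integral_of_le (by norm_num)]
    rw [intervalIntegral.integral_sub (by simp) (by apply Continuous.intervalIntegrable; fun_prop),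
      intervalIntegral.integral_const, intervalIntegral.integral_const_mul, integral_id]
    norm_num
  · exact (Continuous.integrableOn_Icc (by fun_prop))
  · rw [Filter.EventuallyLE, ae_restrict_iff' measurableSet_Icc]
    filter_upwards with y hy
    simp only [Pi.zero_apply]
    linarith [hy.2]

/-- **Main theorem.** For every real `c < 4 / 3` there are a convex body `K` and a convex door `D`
such that `K` can be moved through `D` while every plane projection of `K` has area strictly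
greater than `c` times the area of `D`. -/
theorem result : ∀ c : ℝ, c < 4 / 3 → ∃ K D : Set E3,
    IsConvexBody K ∧ IsDoor D ∧ CanMoveThrough K D ∧
      ∀ u : E3, ‖u‖ = 1 → ENNReal.ofReal c * doorArea D < projArea K u := by
  intro c hc
  obtain ⟨c', hc'1, hc'2, hc'3⟩ : ∃ c' : ℝ, 3 * c ≤ 4 * c' ∧ 1 / 2 ≤ c' ∧ c' < 1 :=
    ⟨max (3 * c / 4) (1 / 2), by linarith [le_max_left (3 * c / 4) (1 / 2 : ℝ)],
      le_max_right _ _, max_lt (by linarith) (by norm_num)⟩
  set δ : ℝ := (1 - c' ^ 2) / 2 with hδ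
  have hδ0 : 0 < δ := by
    have : c' ^ 2 < 1 := by nlinarith
    rw [hδ]; linarith
  set ε : ℝ := Real.sqrt δ with hε
  have hε0 : 0 < ε := Real.sqrt_pos.2 hδ0
  have hε2 : ε ^ 2 = δ := Real.sq_sqrt hδ0.le
  set h : ℝ := 30 / ε with hh
  have hh0 : 0 < h := by positivity
  have hhε : h * ε = 30 := by rw [hh]; field_simp
  refine ⟨exBody h, exDoor, exBody_isConvexBody hh0, exDoor_isDoor, canMoveThrough_ex hh0, ?_⟩
  intro u hu
  rw [doorArea_ex, mul_comm (ENNReal.ofReal c), ← ENNReal.ofReal_mul (by norm_num)]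
  have hnorm : u 0 ^ 2 + u 1 ^ 2 + u 2 ^ 2 = 1 := by
    have : ‖u‖ ^ 2 = 1 := by rw [hu]; norm_num
    rw [EuclideanSpace.norm_eq, Real.sq_sqrt (by positivity), Fin.sum_univ_three] at this
    simpa using this
  by_cases hz : c' < |u 2|
  · have hu2 : u 2 ≠ 0 := by
      intro h0; rw [h0, abs_zero] at hz; linarith
    refine lt_of_lt_of_le ?_ (proj_lower_vert hh0 hu hu2)
    rw [← ENNReal.ofReal_mul (abs_nonneg _)]
    apply (ENNReal.ofReal_lt_ofReal_iff (by positivity)).2
    linarith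
  · push Not at hz
    have hz2 : u 2 ^ 2 ≤ c' ^ 2 := by
      rw [← sq_abs]; exact pow_le_pow_left₀ (abs_nonneg _) hz 2
    have hsum : 2 * δ ≤ u 0 ^ 2 + u 1 ^ 2 := by rw [hδ]; linarith
    rcases le_or_gt δ (u 1 ^ 2) with h1 | h1
    · -- the base rectangle is seen in large size
      have hu1 : ε ≤ |u 1| := by
        apply le_of_sq_le_sq _ (abs_nonneg _)
        rw [sq_abs, hε2]; exact h1
      have hu2 : |u 2| ≤ 1 := by
        apply le_of_sq_le_sq _ zero_le_one
        rw [sq_abs]; nlinarith [sq_nonneg (u 0), sq_nonneg (u 1)]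
      refine lt_of_lt_of_le ?_ (proj_lower_base hh0 hu)
      rw [← ENNReal.ofReal_mul (abs_nonneg _)]
      have hbig : 29 ≤ |h * u 1 + u 2 / 2| := by
        have e1 : |h * u 1| = h * |u 1| := by rw [abs_mul, abs_of_pos hh0]
        have e2 : 30 ≤ h * |u 1| := by rw [← hhε]; gcongr
        have e3 : |u 2 / 2| ≤ 1 := by rw [abs_div, abs_two]; linarith
        have e4 := abs_sub_abs_le_abs_add (h * u 1) (u 2 / 2)
        linarith
      apply (ENNReal.ofReal_lt_ofReal_iff (by linarith)).2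
      linarith
    · -- the section `x = 0` is seen in large size
      have hu0 : ε ≤ |u 0| := by
        apply le_of_sq_le_sq _ (abs_nonneg _)
        rw [sq_abs, hε2]; linarith
      refine lt_of_lt_of_le ?_ (proj_lower_side hh0 hu)
      rw [← ENNReal.ofReal_mul (abs_nonneg _)]
      have hbig : 5 ≤ |u 0| * (h / 6) := by
        have e2 : 30 ≤ h * |u 0| := by rw [← hhε]; gcongr
        linarith
      apply (ENNReal.ofReal_lt_ofReal_iff (by linarith)).2
      linarith

end Pool.Agent.Results.MP_d572aa_gt.ConvexDoor
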